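import Mathlib

/-!
# An absolutely `H`-closed topological semilattice which is not chain-complete
-/

open Set Filter Topology

namespace Pool.Agent.Results.MP_22c7c2_gt.NotChainComplete

universe u v

/-! ## Definitions -/

section Defs

variable (X : Type u) [TopologicalSpace X] [Mul X]

/-- Topological semilattices. -/
def IsTopSemilattice : Prop :=
  Continuous (fun p : X × X => p.1 * p.2) ∧ (∀ x y z : X, x * y * z = x * (y * z)) ∧
    (∀ x y : X, x * y = y * x) ∧ ∀ x : X, x * x = x

variable {X}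

/-- `m` is the infimum of `A` in the natural order `x ≤ y ↔ x * y = x`. -/
def IsInf (A : Set X) (m : X) : Prop :=
  (∀ a ∈ A, m * a = m) ∧ ∀ b, (∀ a ∈ A, b * a = b) → b * m = b

/-- `m` is the supremum of `A` in the natural order. -/
def IsSup (A : Set X) (m : X) : Prop :=
  (∀ a ∈ A, a * m = a) ∧ ∀ b, (∀ a ∈ A, a * b = a) → m * b = m

/-- Chains. -/
def IsChn (C : Set X) : Prop := ∀ x ∈ C, ∀ y ∈ C, x * y = x ∨ x * y = y

variable (X)

/-- Chain-completeness: every non-empty chain has an infimum and a supremum. -/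
def ChainComplete : Prop :=
  ∀ C : Set X, C.Nonempty → IsChn C → (∃ m, IsInf C m) ∧ ∃ m, IsSup C m

/-- Absolute `H`-closedness (with respect to topological semigroups in the universe `v`). -/
def AbsolutelyHClosed : Prop :=
  ∀ (Y : Type v) [TopologicalSpace Y] [T2Space Y] [Semigroup Y] [ContinuousMul Y] (h : X → Y),
    Continuous h → (∀ x y, h (x * y) = h x * h y) → IsClosed (range h)

end Defs

/-! ## The semilattice -/

/-- The elements: a number `k` and a function `T` vanishing on `[0,k]`. -/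
@[ext]
structure W where
  /-- the number -/
  k : ℕ
  /-- the function -/
  T : ℕ → ℕ
  zero : ∀ j ≤ k, T j = 0

instance : Mul W where
  mul p q := ⟨max p.k q.k, fun j => if j ≤ max p.k q.k then 0 else max (p.T j) (q.T j),
    fun j hj => if_pos hj⟩

theorem mul_k (p q : W) : (p * q).k = max p.k q.k := rfl

theorem mul_T (p q : W) (j : ℕ) :
    (p * q).T j = if j ≤ max p.k q.k then 0 else max (p.T j) (q.T j) := rfl

theorem mul_T_of_lt {p q : W} {j : ℕ} (h : max p.k q.k < j) :
    (p * q).T j = max (p.T j) (q.T j) := by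
  rw [mul_T, if_neg (not_le.2 h)]

theorem W.mul_comm' (p q : W) : p * q = q * p := by
  apply W.ext
  · exact max_comm _ _
  · funext j
    rw [mul_T, mul_T, max_comm q.k, max_comm (q.T j)]

theorem W.mul_self' (p : W) : p * p = p := by
  apply W.ext
  · exact max_self _
  · funext j
    rw [mul_T, max_self, max_self]
    split_ifs with h
    · exact (p.zero j h).symm
    · rfl

theorem W.mul_assoc' (p q r : W) : p * q * r = p * (q * r) := by
  apply W.ext
  · exact max_assoc _ _ _
  · funext j
    simp only [mul_T, mul_k]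
    by_cases h1 : j ≤ max (max p.k q.k) r.k
    · rw [if_pos h1, if_pos (by rwa [← max_assoc])]
    · have h2 : ¬ j ≤ max p.k q.k := fun h => h1 (h.trans (le_max_left _ _))
      have h3 : ¬ j ≤ max q.k r.k := fun h => h1 (by
        rw [max_assoc]; exact h.trans (le_max_right _ _))
      rw [if_neg h1, if_neg h2, if_neg (by rwa [← max_assoc]), if_neg h3, max_assoc]

/-- The neighbourhoods. -/
def B (p : W) (N : ℕ) : Set W := {q | (∀ j, p.k < j → j ≤ N → q.T j = p.T j) ∧
  (q.k = p.k ∨ (q.k < p.k ∧ N ≤ q.T p.k))}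

theorem mem_B_self (p : W) (N : ℕ) : p ∈ B p N := ⟨fun _ _ _ => rfl, Or.inl rfl⟩

theorem B_anti (p : W) {M N : ℕ} (h : M ≤ N) : B p N ⊆ B p M := by
  rintro q ⟨h1, h2⟩
  exact ⟨fun j hj hjM => h1 j hj (hjM.trans h), h2.imp_right fun e => ⟨e.1, h.trans e.2⟩⟩

theorem B_open (p : W) (N : ℕ) (q : W) (hq : q ∈ B p N) : ∃ N', B q N' ⊆ B p N := by
  obtain ⟨h1, h2⟩ := hq
  refine ⟨max N p.k, ?_⟩
  rintro r ⟨g1, g2⟩
  have hqp : q.k ≤ p.k := by
    rcases h2 with h | h
    · exact h.le
    · exact h.1.le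
  refine ⟨fun j hj hjN => ?_, ?_⟩
  · rw [g1 j (hqp.trans_lt hj) (hjN.trans (le_max_left _ _)), h1 j hj hjN]
  · rcases h2 with h2 | h2
    · rcases g2 with g2 | g2
      · exact Or.inl (g2.trans h2)
      · right
        rw [h2] at g2
        exact ⟨g2.1, (le_max_left _ _).trans g2.2⟩
    · right
      have h3 : r.k ≤ q.k := by
        rcases g2 with h | h
        · exact h.le
        · exact h.1.le
      refine ⟨h3.trans_lt h2.1, ?_⟩
      rw [g1 p.k h2.1 (le_max_right _ _)]
      exact h2.2

instance : TopologicalSpace W where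
  IsOpen U := ∀ p ∈ U, ∃ N, B p N ⊆ U
  isOpen_univ := fun _ _ => ⟨0, subset_univ _⟩
  isOpen_inter := by
    rintro U V hU hV p ⟨hpU, hpV⟩
    obtain ⟨N, hN⟩ := hU p hpU
    obtain ⟨M, hM⟩ := hV p hpV
    exact ⟨max N M, subset_inter ((B_anti p (le_max_left _ _)).trans hN)
      ((B_anti p (le_max_right _ _)).trans hM)⟩
  isOpen_sUnion := by
    rintro S hS p ⟨U, hU, hp⟩
    obtain ⟨N, hN⟩ := hS U hU p hp
    exact ⟨N, hN.trans (subset_sUnion_of_mem hU)⟩

theorem isOpen_B (p : W) (N : ℕ) : IsOpen (B p N) := fun q hq => B_open p N q hq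

theorem mem_nhds_W {p : W} {U : Set W} : U ∈ 𝓝 p ↔ ∃ N, B p N ⊆ U := by
  rw [mem_nhds_iff]
  constructor
  · rintro ⟨V, hVU, hV, hp⟩
    obtain ⟨N, hN⟩ := hV p hp
    exact ⟨N, hN.trans hVU⟩
  · rintro ⟨N, hN⟩
    exact ⟨_, hN, isOpen_B p N, mem_B_self p N⟩

theorem mul_near_aux {p q : W} (hpq : p.k ≤ q.k) (M : ℕ) {p' q' : W}
    (hp : p' ∈ B p (max M (max p.k q.k))) (hq : q' ∈ B q (max M (max p.k q.k))) :
    p' * q' ∈ B (p * q) M := by
  obtain ⟨h1, h2⟩ := hp
  obtain ⟨g1, g2⟩ := hq
  have hk : max p.k q.k = q.k := max_eq_right hpq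
  have hp' : p'.k ≤ p.k := by
    rcases h2 with h | h
    · exact h.le
    · exact h.1.le
  have hq' : q'.k ≤ q.k := by
    rcases g2 with h | h
    · exact h.le
    · exact h.1.le
  have hm : max p'.k q'.k ≤ q.k := max_le (hp'.trans hpq) hq'
  refine ⟨fun j hj hjM => ?_, ?_⟩
  · rw [mul_k, hk] at hj
    rw [mul_T_of_lt (hm.trans_lt hj), mul_T_of_lt (by rw [hk]; exact hj),
      h1 j (hpq.trans_lt hj) (hjM.trans (le_max_left _ _)),
      g1 j hj (hjM.trans (le_max_left _ _))]
  · rw [mul_k, mul_k, hk]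
    rcases hm.eq_or_lt with h | h
    · exact Or.inl h
    · right
      refine ⟨h, ?_⟩
      rw [mul_T_of_lt h]
      rcases g2 with g2 | g2
      · have := (le_max_right p'.k q'.k).trans_lt h
        omega
      · exact ((le_max_left M _).trans g2.2).trans (le_max_right _ _)

theorem mul_near (p q : W) (M : ℕ) : ∃ N, ∀ p' ∈ B p N, ∀ q' ∈ B q N, p' * q' ∈ B (p * q) M := by
  refine ⟨max M (max p.k q.k), fun p' hp' q' hq' => ?_⟩
  rcases le_total p.k q.k with h | h
  · exact mul_near_aux h M hp' hq'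
  · rw [W.mul_comm' p' q', W.mul_comm' p q]
    rw [max_comm p.k] at hp' hq'
    exact mul_near_aux h M hq' hp'

instance : ContinuousMul W := by
  refine ⟨continuous_iff_continuousAt.2 ?_⟩
  rintro ⟨p, q⟩
  intro U hU
  obtain ⟨M, hM⟩ := mem_nhds_W.1 hU
  obtain ⟨N, hN⟩ := mul_near p q M
  rw [Filter.mem_map, nhds_prod_eq]
  refine Filter.mem_of_superset (Filter.prod_mem_prod (mem_nhds_W.2 ⟨N, Subset.rfl⟩)
    (mem_nhds_W.2 ⟨N, Subset.rfl⟩)) ?_
  rintro ⟨p', q'⟩ ⟨hp', hq'⟩
  exact hM (hN p' hp' q' hq')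

theorem t2_aux {p q : W} (h : p.k < q.k) :
    Disjoint (B p (max q.k (p.T q.k + 1))) (B q (max q.k (p.T q.k + 1))) := by
  rw [Set.disjoint_left]
  rintro r ⟨h1, h2⟩ ⟨g1, g2⟩
  have hr : r.k ≤ p.k := by
    rcases h2 with h | h
    · exact h.le
    · exact h.1.le
  rcases g2 with g2 | g2
  · omega
  · have h3 := h1 q.k h (le_max_left _ _)
    have h4 := (le_max_right q.k (p.T q.k + 1)).trans g2.2
    omega

instance : T2Space W := by
  refine ⟨fun p q hpq => ?_⟩
  have key : ∃ N, Disjoint (B p N) (B q N) := by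
    rcases lt_trichotomy p.k q.k with h | h | h
    · exact ⟨_, t2_aux h⟩
    · obtain ⟨j, hj⟩ : ∃ j, p.T j ≠ q.T j := by
        by_contra hcon
        push Not at hcon
        exact hpq (W.ext h (funext hcon))
      have hjk : p.k < j := by
        by_contra hle
        exact hj ((p.zero j (not_lt.1 hle)).trans (q.zero j (h ▸ not_lt.1 hle)).symm)
      refine ⟨j, ?_⟩
      rw [Set.disjoint_left]
      rintro r ⟨h1, _⟩ ⟨g1, _⟩
      exact hj ((h1 j hjk le_rfl).symm.trans (g1 j (h ▸ hjk) le_rfl))
    · exact ⟨_, (t2_aux h).symm⟩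
  obtain ⟨N, hN⟩ := key
  exact ⟨_, _, isOpen_B p N, isOpen_B q N, mem_B_self p N, mem_B_self q N, hN⟩

/-- The descending chain. -/
def d (j : ℕ) : W := ⟨j, fun _ => 0, fun _ _ => rfl⟩

/-- The element `t j i`, which converges to `d j` for `i → ∞`. -/
def t (j i : ℕ) : W where
  k := 0
  T := fun l => if l = j ∧ 0 < l then i else 0
  zero := by
    intro l hl
    rw [if_neg]
    omega

theorem closure_B {N : ℕ} {w : W} (hw : N < w.k) : w ∈ closure (B (d 0) N) := by
  rw [mem_closure_iff_nhds]
  intro U hU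
  obtain ⟨M, hM⟩ := mem_nhds_W.1 hU
  let r : W := ⟨0, fun j => if j < w.k then 0 else if j = w.k then M else w.T j, by
    intro j hj
    rw [if_pos]
    omega⟩
  have hr : ∀ j, r.T j = if j < w.k then 0 else if j = w.k then M else w.T j := fun _ => rfl
  refine ⟨r, hM ⟨fun j hj _ => ?_, Or.inr ⟨?_, ?_⟩⟩, ⟨fun j _ hjN => ?_, Or.inl rfl⟩⟩
  · rw [hr, if_neg (by omega), if_neg (by omega)]
  · change 0 < w.k
    omega
  · rw [hr, if_neg (lt_irrefl _), if_pos rfl]
  · rw [hr, if_pos (by omega)]
    rfl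

/-! ## Absolute closedness -/

theorem absolutely_closed : AbsolutelyHClosed.{0, v} W := by
  intro Y _ _ _ _ h hc hm
  rw [← closure_subset_iff_isClosed]
  intro y hy
  -- an ultrafilter on `W` whose image converges to `y`
  have hne : (comap h (𝓝 y)).NeBot := by
    rw [comap_neBot_iff]
    intro s hs
    obtain ⟨_, hz, ⟨a, rfl⟩⟩ := mem_closure_iff_nhds.1 hy s hs
    exact ⟨a, hz⟩
  obtain ⟨U, hU⟩ := Ultrafilter.exists_le (comap h (𝓝 y))
  have hlim : Tendsto h U (𝓝 y) := tendsto_iff_comap.2 hU
  -- the main point: closures of the neighbourhoods of the top element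
  have htop : ∀ O ∈ 𝓝 (h (d 0)), ∃ N, ∀ w : W, N < w.k → h w ∈ closure O := by
    intro O hO
    obtain ⟨N, hN⟩ := mem_nhds_W.1 (hc.continuousAt.preimage_mem_nhds hO)
    refine ⟨N, fun w hw => ?_⟩
    have h1 : h w ∈ closure (h '' B (d 0) N) :=
      image_closure_subset_closure_image hc ⟨w, closure_B hw, rfl⟩
    exact closure_mono (image_subset_iff.2 hN) h1
  have hfin : (∀ O ∈ 𝓝 (h (d 0)), y ∈ closure O) → y ∈ range h := by
    intro hcl
    refine ⟨d 0, ?_⟩
    by_contra hne
    obtain ⟨O, O', hO, hO', h1, h2, hdis⟩ := t2_separation hne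
    have h3 := hcl O (hO.mem_nhds h1)
    obtain ⟨z, hz, hz'⟩ := mem_closure_iff.1 h3 O' hO' h2
    exact Set.disjoint_left.1 hdis hz' hz
  by_cases hk : ∀ N, {w : W | N < w.k} ∈ U
  · -- the numbers tend to infinity
    apply hfin
    intro O hO
    obtain ⟨N, hN⟩ := htop O hO
    refine isClosed_closure.mem_of_tendsto hlim ?_
    exact Filter.mem_of_superset (hk N) fun w hw => hN w hw
  · push Not at hk
    obtain ⟨N, hN⟩ := hk
    have hN' : {w : W | N < w.k}ᶜ ∈ U := Ultrafilter.compl_mem_iff_notMem.2 hN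
    obtain ⟨k, hk⟩ : ∃ k, {w : W | w.k = k} ∈ U := by
      have h1 : (⋃ k ∈ Iic N, {w : W | w.k = k}) ∈ U := by
        refine Filter.mem_of_superset hN' fun w hw => ?_
        exact mem_iUnion₂.2 ⟨w.k, not_lt.1 (show ¬ N < w.k from hw), rfl⟩
      rw [Ultrafilter.finite_biUnion_mem_iff (finite_Iic N)] at h1
      obtain ⟨k, _, hk⟩ := h1
      exact ⟨k, hk⟩
    -- coordinates tending to infinity
    let I : ℕ → Prop := fun j => ∀ M, {w : W | M ≤ w.T j} ∈ U
    have hnI : ∀ j, ¬ I j → ∃ c, {w : W | w.T j = c} ∈ U := by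
      intro j hj
      simp only [I] at hj
      push Not at hj
      obtain ⟨M, hM⟩ := hj
      have hM' : {w : W | M ≤ w.T j}ᶜ ∈ U := Ultrafilter.compl_mem_iff_notMem.2 hM
      have h1 : (⋃ c ∈ Iio M, {w : W | w.T j = c}) ∈ U := by
        refine Filter.mem_of_superset hM' fun w hw => ?_
        exact mem_iUnion₂.2 ⟨w.T j, not_le.1 (show ¬ M ≤ w.T j from hw), rfl⟩
      rw [Ultrafilter.finite_biUnion_mem_iff (finite_Iio M)] at h1
      obtain ⟨c, _, hc⟩ := h1
      exact ⟨c, hc⟩
    by_cases hinf : ∀ N, ∃ j, N < j ∧ I j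
    · apply hfin
      intro O hO
      obtain ⟨N, hN⟩ := htop O hO
      obtain ⟨j, hj, hIj⟩ := hinf N
      have hj0 : 0 < j := by omega
      -- `y * h (d j) = y`
      have h1 : Tendsto (fun w : W => t j (w.T j)) U (𝓝 (d j)) := by
        intro O' hO'
        obtain ⟨M, hM⟩ := mem_nhds_W.1 hO'
        have h0 : {w : W | t j (w.T j) ∈ O'} ∈ (U : Filter W) := by
          refine Filter.mem_of_superset (hIj M) fun w hw => hM ?_
          refine ⟨fun l hl _ => ?_, Or.inr ⟨(show 0 < j from hj0), ?_⟩⟩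
          · change (if l = j ∧ 0 < l then w.T j else 0) = 0
            rw [if_neg]
            rintro ⟨rfl, _⟩
            exact lt_irrefl _ hl
          · change M ≤ if j = j ∧ 0 < j then w.T j else 0
            rw [if_pos ⟨rfl, hj0⟩]
            exact hw
        exact h0
      have h2 : ∀ w : W, w * t j (w.T j) = w := by
        intro w
        apply W.ext
        · rw [mul_k]
          exact max_eq_left (Nat.zero_le _)
        · funext l
          rw [mul_T]
          have h3 : max w.k (t j (w.T j)).k = w.k := max_eq_left (Nat.zero_le _)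
          rw [h3]
          split_ifs with h4
          · exact (w.zero l h4).symm
          · change max (w.T l) (if l = j ∧ 0 < l then w.T j else 0) = w.T l
            split_ifs with h5
            · rw [h5.1, max_self]
            · exact max_eq_left (Nat.zero_le _)
      have h3 : Tendsto (fun w : W => h w * h (t j (w.T j))) U (𝓝 (y * h (d j))) :=
        hlim.mul ((hc.tendsto _).comp h1)
      have h4 : (fun w : W => h w * h (t j (w.T j))) = h := by
        funext w
        rw [← hm, h2]
      rw [h4] at h3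
      have h5 : y * h (d j) = y := tendsto_nhds_unique h3 hlim
      have h6 : Tendsto (fun w : W => h (w * d j)) U (𝓝 y) := by
        have h7 := hlim.mul_const (h (d j))
        rw [h5] at h7
        refine h7.congr fun w => ?_
        rw [hm]
      refine isClosed_closure.mem_of_tendsto h6 (Filter.Eventually.of_forall fun w => ?_)
      apply hN
      rw [mul_k]
      exact lt_of_lt_of_le hj (le_max_right _ _)
    · -- convergence in `W`
      push Not at hinf
      obtain ⟨N, hN⟩ := hinf
      obtain ⟨ks, hks, hmax⟩ : ∃ ks, (ks = k ∨ (k < ks ∧ I ks)) ∧ ∀ j, ks < j → ¬ I j := by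
        let S : Set ℕ := {j | j = k ∨ (k < j ∧ I j)}
        have hSfin : S.Finite := by
          refine (finite_Iic (max k N)).subset ?_
          rintro j (rfl | ⟨_, hj⟩)
          · exact mem_Iic.2 (le_max_left _ _)
          · by_contra hlt
            have hlt' : max k N < j := not_le.1 hlt
            exact hN j ((le_max_right _ _).trans_lt hlt') hj
        obtain ⟨ks, hks⟩ := hSfin.exists_maximal ⟨k, Or.inl rfl⟩
        refine ⟨ks, hks.1, fun j hj hIj => ?_⟩
        have hkks : k ≤ ks := by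
          rcases hks.1 with h | h
          · exact h.ge
          · exact h.1.le
        exact absurd (hks.2 (Or.inr ⟨hkks.trans_lt hj, hIj⟩) hj.le) (not_le.2 hj)
      have hval : ∀ j, ∃ c, ks < j → {w : W | w.T j = c} ∈ U := by
        intro j
        by_cases hj : ks < j
        · obtain ⟨c, hc⟩ := hnI j (hmax j hj)
          exact ⟨c, fun _ => hc⟩
        · exact ⟨0, fun h => absurd h hj⟩
      choose c hcU using hval
      let p : W := ⟨ks, fun j => if ks < j then c j else 0, fun j hj => if_neg (not_lt.2 hj)⟩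
      have hpT : ∀ j, ks < j → p.T j = c j := fun j hj => if_pos hj
      have hconv : (U : Filter W) ≤ 𝓝 p := by
        intro O hO
        obtain ⟨M, hM⟩ := mem_nhds_W.1 hO
        have h1 : {w : W | ∀ j, ks < j → j ≤ M → w.T j = c j} ∈ (U : Filter W) := by
          have h2 : (⋂ j ∈ Iic M, {w : W | ks < j → w.T j = c j}) ∈ (U : Filter W) := by
            rw [biInter_mem (finite_Iic M)]
            intro j _
            by_cases hj : ks < j
            · exact Filter.mem_of_superset (hcU j hj) fun w hw _ => hw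
            · exact Filter.mem_of_superset Filter.univ_mem fun w _ h => absurd h hj
          refine Filter.mem_of_superset h2 fun w hw j hj hjM => ?_
          exact mem_iInter₂.1 hw j hjM hj
        have h3 : {w : W | w.k = ks ∨ (w.k < ks ∧ M ≤ w.T ks)} ∈ (U : Filter W) := by
          rcases hks with h4 | h4
          · refine Filter.mem_of_superset hk fun w hw => Or.inl ?_
            rw [h4]
            exact hw
          · refine Filter.mem_of_superset (Filter.inter_mem hk (h4.2 M)) ?_
            rintro w ⟨hw1, hw2⟩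
            right
            refine ⟨?_, hw2⟩
            rw [show w.k = k from hw1]
            exact h4.1
        refine Filter.mem_of_superset (Filter.inter_mem h1 h3) ?_
        rintro w ⟨hw1, hw2⟩
        exact hM ⟨fun j hj hjM => (hw1 j hj hjM).trans (hpT j hj).symm, hw2⟩
      exact ⟨p, tendsto_nhds_unique ((hc.tendsto p).mono_left hconv) hlim⟩

/-- There is an absolutely `H`-closed Hausdorff topological semilattice with a non-empty chain
without lower bounds; in particular it is not chain-complete. -/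
theorem result : ∃ (X : Type) (_ : TopologicalSpace X) (_ : Mul X),
    IsTopSemilattice X ∧ T2Space X ∧ AbsolutelyHClosed.{0, v} X ∧
      (∃ C : Set X, C.Nonempty ∧ IsChn C ∧ ¬ ∃ m, ∀ a ∈ C, m * a = m) ∧
      ¬ ChainComplete X := by
  have hch : IsChn (range d) := by
    rintro _ ⟨i, rfl⟩ _ ⟨j, rfl⟩
    have key : ∀ i j, i ≤ j → d i * d j = d j := by
      intro i j hij
      apply W.ext
      · exact max_eq_right hij
      · funext l
        rw [mul_T]
        split_ifs
        · rfl
        · exact max_self _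
    rcases le_total i j with h | h
    · exact Or.inr (key i j h)
    · left
      rw [W.mul_comm', key j i h]
  have hlow : ¬ ∃ m : W, ∀ a ∈ range d, m * a = m := by
    rintro ⟨m, hm⟩
    have h1 : max m.k (m.k + 1) = m.k := congrArg W.k (hm (d (m.k + 1)) ⟨_, rfl⟩)
    omega
  refine ⟨W, inferInstance, inferInstance, ⟨continuous_mul, W.mul_assoc', W.mul_comm',
    W.mul_self'⟩, inferInstance, absolutely_closed, ⟨range d, ⟨_, ⟨0, rfl⟩⟩, hch, hlow⟩,
    fun hcc => ?_⟩
  obtain ⟨⟨m, hm⟩, _⟩ := hcc (range d) ⟨_, ⟨0, rfl⟩⟩ hch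
  exact hlow ⟨m, hm.1⟩

end Pool.Agent.Results.MP_22c7c2_gt.NotChainComplete
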